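import Pool.Agent.MP_2b113a_an.H61.BG2
import Pool.Agent.MP_2b113a_an.H83.Defs

/-!
Bounded elementary generation of `SL n ℤ`, `n ≥ 3`.
-/

namespace Pool.Agent.MP_2b113a_an.H61

open Matrix

/-- Bounded elementary generation for the index type `κ`. -/
def BG (κ : Type) [Fintype κ] [DecidableEq κ] : Prop :=
  ∃ m : ℕ, ∀ A : Matrix κ κ ℤ, A.det = 1 → BE m A

theorem BG.equiv {κ κ' : Type} [Fintype κ] [DecidableEq κ] [Fintype κ'] [DecidableEq κ']
    (e : κ ≃ κ') (h : BG κ) : BG κ' := by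
  obtain ⟨m, hm⟩ := h
  refine ⟨m, fun A hA => ?_⟩
  have := (hm (Matrix.reindex e.symm e.symm A) (by rw [det_reindex_self, hA])).reindex e
  simpa using this

/-- An explicit identification. -/
def e3 : Fin 3 ≃ Fin 2 ⊕ Unit where
  toFun := ![Sum.inl 0, Sum.inl 1, Sum.inr ()]
  invFun := Sum.elim ![0, 1] fun _ => 2
  left_inv := by decide
  right_inv := by decide

theorem BG.base : BG (Fin 2 ⊕ Unit) := by
  refine ⟨81 + (3 * Fintype.card (Fin 2) + 4), fun A hA => ?_⟩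
  obtain ⟨B, hB, h⟩ := step (0 : Fin 2) 1 (by decide) A hA
  refine h 81 ?_
  rw [det_fin_two] at hB
  convert (core hB).reindex e3 using 1
  ext (i | i) (j | j)
  · fin_cases i <;> fin_cases j <;> rfl
  · fin_cases i <;> rfl
  · fin_cases j <;> rfl
  · rfl

theorem BG.succ {κ : Type} [Fintype κ] [DecidableEq κ] (i₀ i₁ : κ) (h01 : i₀ ≠ i₁) (h : BG κ) :
    BG (κ ⊕ Unit) := by
  obtain ⟨m, hm⟩ := h
  refine ⟨m + (3 * Fintype.card κ + 4), fun A hA => ?_⟩
  obtain ⟨B, hB, h⟩ := step i₀ i₁ h01 A hA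
  exact h m (hm B hB).sumInl

theorem BG.fin (n : ℕ) : BG (Fin (n + 3)) := by
  induction n with
  | zero => exact BG.base.equiv e3.symm
  | succ n ih =>
    refine (ih.succ 0 1 (by simp [Fin.ext_iff])).equiv (Fintype.equivOfCardEq (by simp))

theorem bg : Pool.Agent.MP_2b113a_an.H83.BGStmt := by
  intro n hn
  obtain ⟨k, rfl⟩ : ∃ k, n = k + 3 := ⟨n - 3, by omega⟩
  obtain ⟨m, hm⟩ := BG.fin k
  refine ⟨m, fun g => ?_⟩
  obtain ⟨L, h1, h2⟩ := hm g g.det_coe
  refine ⟨L.map fun t => ⟨t.toMatrix, t.det⟩, by simpa using h1, ?_, ?_⟩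
  · apply Subtype.ext
    rw [← h2]
    change Matrix.SpecialLinearGroup.coeMonoidHom _ = _
    rw [map_list_prod, List.map_map]
    rfl
  · intro e he
    obtain ⟨t, _, rfl⟩ := List.mem_map.mp he
    exact ⟨t.i, t.j, t.c, t.hij, rfl⟩

end Pool.Agent.MP_2b113a_an.H61
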