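import Pool.Agent.MP_2b113a_an.H33.Defs

/-! Factorisation of a polynomial curve along a flag. -/

set_option autoImplicit false

namespace Pool.Agent.MP_2b113a_an.H61

open Polynomial Pool.Agent.MP_2b113a_an.H33

section Ring

variable {R : Type} [Ring R] [Algebra ℚ R]

lemma conj_mem (u : R) (hu : IsNilpotent u) (W : Submodule ℚ R)
    (hW : ∀ a ∈ W, u * a - a * u ∈ W) (a : R) (ha : a ∈ W) :
    IsNilpotent.exp u * a * IsNilpotent.exp (-u) ∈ W := by
  obtain ⟨k, hk⟩ := hu
  have hk' : (-u) ^ k = 0 := by rw [neg_pow, hk, mul_zero]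
  set l : Module.End ℚ R := LinearMap.mulLeft ℚ u with hl
  set r : Module.End ℚ R := LinearMap.mulRight ℚ (-u) with hr
  have hlk : l ^ k = 0 := by rw [hl, LinearMap.pow_mulLeft, hk, LinearMap.mulLeft_zero_eq_zero]
  have hrk : r ^ k = 0 := by rw [hr, LinearMap.pow_mulRight, hk', LinearMap.mulRight_zero_eq_zero]
  have hc : Commute l r := LinearMap.commute_mulLeft_right u (-u)
  have h1 : ∀ b, IsNilpotent.exp l b = IsNilpotent.exp u * b := by
    intro b
    rw [IsNilpotent.exp_eq_sum hlk, IsNilpotent.exp_eq_sum hk, LinearMap.sum_apply, Finset.sum_mul]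
    refine Finset.sum_congr rfl fun i _ => ?_
    rw [LinearMap.smul_apply, hl, LinearMap.pow_mulLeft, LinearMap.mulLeft_apply, smul_mul_assoc]
  have h2 : ∀ b, IsNilpotent.exp r b = b * IsNilpotent.exp (-u) := by
    intro b
    rw [IsNilpotent.exp_eq_sum hrk, IsNilpotent.exp_eq_sum hk', LinearMap.sum_apply,
      Finset.mul_sum]
    refine Finset.sum_congr rfl fun i _ => ?_
    rw [LinearMap.smul_apply, hr, LinearMap.pow_mulRight, LinearMap.mulRight_apply, mul_smul_comm]
  have h3 : IsNilpotent.exp u * a * IsNilpotent.exp (-u) = IsNilpotent.exp (l + r) a := by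
    rw [IsNilpotent.exp_add_of_commute hc ⟨k, hlk⟩ ⟨k, hrk⟩, Module.End.mul_apply, h1, h2,
      mul_assoc]
  have h4 : ∀ i : ℕ, ((l + r) ^ i) a ∈ W := by
    intro i
    induction i with
    | zero => simpa using ha
    | succ i ih =>
      rw [pow_succ', Module.End.mul_apply]
      have := hW _ ih
      simpa [hl, hr, sub_eq_add_neg] using this
  rw [h3, IsNilpotent.exp, LinearMap.sum_apply]
  exact W.sum_mem fun i _ => by rw [LinearMap.smul_apply]; exact W.smul_mem _ (h4 i)

lemma commute_exp {u v : R} (h : Commute v u) : Commute v (IsNilpotent.exp u) := by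
  rw [IsNilpotent.exp]
  exact Commute.sum_right _ _ _ fun i _ => (h.pow_right i).smul_right _

lemma derivative_pow_succ' (u : R[X]) (h : Commute u (derivative u)) (n : ℕ) :
    derivative (u ^ (n + 1)) = ((n + 1 : ℕ) : ℚ) • (derivative u * u ^ n) := by
  induction n with
  | zero => simp
  | succ n ih =>
    rw [pow_succ, derivative_mul, ih, (h.pow_left (n + 1)).eq, smul_mul_assoc, mul_assoc,
      ← pow_succ, Nat.cast_succ (n + 1), add_smul _ (1 : ℚ), one_smul]

lemma derivative_exp (u : R[X]) (hu : IsNilpotent u) (h : Commute u (derivative u)) :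
    derivative (IsNilpotent.exp u) = derivative u * IsNilpotent.exp u := by
  obtain ⟨k, hk⟩ := hu
  have hk' : u ^ (k + 1) = 0 := by rw [pow_succ, hk, zero_mul]
  conv_lhs => rw [IsNilpotent.exp_eq_sum hk']
  rw [IsNilpotent.exp_eq_sum hk, Finset.sum_range_succ', map_add, map_sum, Finset.mul_sum]
  simp only [derivative_smul, pow_zero, derivative_one, smul_zero, add_zero]
  refine Finset.sum_congr rfl fun i _ => ?_
  rw [derivative_pow_succ' u h, smul_smul, mul_smul_comm, Nat.factorial_succ]
  congr 1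
  have h1 : ((i + 1 : ℕ) : ℚ) ≠ 0 := by positivity
  have h2 : (i.factorial : ℚ) ≠ 0 := by positivity
  push_cast at h1 ⊢
  field_simp

/-- Scalar polynomials. -/
noncomputable def sc (R : Type) [Ring R] [Algebra ℚ R] : ℚ[X] →+* R[X] :=
  mapRingHom (algebraMap ℚ R)

lemma sc_comm (p : ℚ[X]) (a : R[X]) : Commute (sc R p) a := by
  induction p using Polynomial.induction_on' with
  | add p q hp hq => rw [map_add]; exact hp.add_left hq
  | monomial n c =>
    have : sc R (monomial n c) = c • X ^ n := by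
      rw [sc, coe_mapRingHom, map_monomial, ← C_mul_X_pow_eq_monomial, Algebra.smul_def]
      rfl
    rw [this]
    exact ((commute_X_pow a n)).smul_left c

lemma coeff_sc_mul_C (p : ℚ[X]) (a : R) (n : ℕ) : (sc R p * C a).coeff n = p.coeff n • a := by
  rw [coeff_mul_C, sc, coe_mapRingHom, coeff_map, Algebra.smul_def]

lemma nil_sc_mul (p : ℚ[X]) {a : R} (ha : IsNilpotent a) : IsNilpotent (sc R p * C a) :=
  (sc_comm p _).isNilpotent_mul_left (ha.map C)

lemma derivative_sc_mul (p : ℚ[X]) (a : R) :
    derivative (sc R p * C a) = sc R (derivative p) * C a := by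
  rw [derivative_mul, derivative_C, mul_zero, add_zero, sc, coe_mapRingHom, derivative_map]

lemma comm_sc_mul (p q : ℚ[X]) (a : R) : Commute (sc R p * C a) (sc R q * C a) :=
  (sc_comm p _).mul_left ((sc_comm q _).symm.mul_right (Commute.refl _))

/-- Polynomials with coefficients in a subspace. -/
def cf (S : Submodule ℚ R) : Submodule ℚ R[X] where
  carrier := {a | ∀ n, a.coeff n ∈ S}
  add_mem' ha hb n := by rw [coeff_add]; exact S.add_mem (ha n) (hb n)
  zero_mem' n := by rw [coeff_zero]; exact S.zero_mem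
  smul_mem' c a ha n := by rw [coeff_smul]; exact S.smul_mem c (ha n)

lemma cf_sc_mul {S : Submodule ℚ R} (p : ℚ[X]) {a : R[X]} (ha : a ∈ cf S) :
    sc R p * a ∈ cf S := by
  intro n
  rw [coeff_mul]
  refine S.sum_mem fun x _ => ?_
  rw [sc, coe_mapRingHom, coeff_map, ← Algebra.smul_def]
  exact S.smul_mem _ (ha _)

lemma cf_conj {S : Submodule ℚ R} (p : ℚ[X]) {z : R} (hz : IsNilpotent z)
    (hS : ∀ y ∈ S, z * y - y * z ∈ S) {a : R[X]} (ha : a ∈ cf S) :
    IsNilpotent.exp (sc R p * C z) * a * IsNilpotent.exp (-(sc R p * C z)) ∈ cf S := by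
  refine conj_mem _ (nil_sc_mul p hz) _ (fun b hb => ?_) a ha
  have h1 : sc R p * C z * b - b * (sc R p * C z) = sc R p * (C z * b - b * C z) := by
    rw [← mul_assoc b, ← (sc_comm p b).eq, mul_sub, mul_assoc, mul_assoc]
  rw [h1]
  refine cf_sc_mul p fun n => ?_
  rw [coeff_sub, coeff_C_mul, coeff_mul_C]
  exact hS _ (hb n)

end Ring

lemma exists_integral (q : ℚ[X]) : ∃ p : ℚ[X], derivative p = q ∧ p.eval 0 = 0 := by
  induction q using Polynomial.induction_on' with
  | add p q hp hq =>
    obtain ⟨a, ha, ha0⟩ := hp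
    obtain ⟨b, hb, hb0⟩ := hq
    exact ⟨a + b, by rw [map_add, ha, hb], by rw [eval_add, ha0, hb0, add_zero]⟩
  | monomial n c =>
    refine ⟨monomial (n + 1) (c / (n + 1)), ?_, by simp⟩
    rw [derivative_monomial_succ, div_mul_cancel₀]
    positivity

variable {L : Type} [LieRing L] [LieAlgebra ℚ L]

/-- The adjoint map as a linear map. -/
def adL : L →ₗ[ℚ] Module.End ℚ L where
  toFun := ad
  map_add' x y := by ext; simp
  map_smul' c x := by ext; simp

/-- The image of the span of a list under the adjoint map. -/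
def adsp (l : List L) : Submodule ℚ (Module.End ℚ L) := (sp l).map adL

lemma adsp_stable {l : List L} {z : L} (h : ∀ y ∈ sp l, ⁅z, y⁆ ∈ sp l) :
    ∀ y ∈ adsp l, ad z * y - y * ad z ∈ adsp l := by
  rintro _ ⟨y, hy, rfl⟩
  refine ⟨⁅z, y⁆, h y hy, ?_⟩
  ext x
  simp [adL]

lemma split_cons (z : L) (l : List L) {a : (Module.End ℚ L)[X]} (ha : a ∈ cf (adsp (z :: l))) :
    ∃ q : ℚ[X], a - sc _ q * C (ad z) ∈ cf (adsp l) := by
  have h1 : ∀ n, ∃ c : ℚ, a.coeff n - c • ad z ∈ adsp l := by
    intro n
    obtain ⟨y, hy, hy'⟩ := ha n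
    have h2 : sp (z :: l) = Submodule.span ℚ (insert z {x | x ∈ l}) := by
      rw [sp]
      congr 1
      ext x
      simp
    rw [SetLike.mem_coe, h2, Submodule.mem_span_insert] at hy
    obtain ⟨c, y', hy1, rfl⟩ := hy
    refine ⟨c, y', hy1, ?_⟩
    rw [← hy', map_add, map_smul]
    exact (add_sub_cancel_left _ _).symm
  choose c hc using h1
  refine ⟨∑ n ∈ Finset.range (a.natDegree + 1), monomial n (c n), fun n => ?_⟩
  rw [coeff_sub, coeff_sc_mul_C]
  simp only [finsetSum_coeff, coeff_monomial, Finset.sum_ite_eq', Finset.mem_range]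
  split_ifs with h
  · exact hc n
  · rw [coeff_eq_zero_of_natDegree_lt (by omega), zero_smul, sub_zero]
    exact Submodule.zero_mem _

lemma flag_factor (l : List L) : Flag l → (∀ z ∈ l, Nil z) → ∀ c a : (Module.End ℚ L)[X],
    constantCoeff c = 1 → derivative c = a * c → a ∈ cf (adsp l) →
    ∃ pl : List (ℚ[X] × L), pl.map Prod.snd = l ∧ (∀ b ∈ pl, b.1.eval 0 = 0) ∧
      c = (pl.map fun b => IsNilpotent.exp (sc _ b.1 * C (ad b.2))).prod := by
  induction l with
  | nil =>
    intro _ _ c a h0 hc ha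
    have ha0 : a = 0 := by
      ext n : 1
      obtain ⟨y, hy, hy'⟩ := ha n
      have : y = 0 := by simpa [sp] using hy
      rw [← hy', this, map_zero, coeff_zero]
    rw [ha0, zero_mul] at hc
    have : IsAddTorsionFree (Module.End ℚ L) := IsAddTorsionFree.of_module_rat _
    refine ⟨[], rfl, by simp, ?_⟩
    rw [eq_C_of_derivative_eq_zero hc, ← constantCoeff_apply, h0]
    simp
  | cons z l ih =>
    intro hF hN c a h0 hc ha
    obtain ⟨q, hq⟩ := split_cons z l ha
    obtain ⟨p, rfl, hp0⟩ := exists_integral q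
    have hz : IsNilpotent (ad z) := hN z (by simp)
    set u := sc (Module.End ℚ L) p * C (ad z) with hu
    set u' := sc (Module.End ℚ L) (derivative p) * C (ad z) with hu'
    have hun : IsNilpotent u := nil_sc_mul p hz
    have hd : derivative u = u' := derivative_sc_mul p _
    have hcomm : Commute u u' := comm_sc_mul _ _ _
    have hconj := cf_conj (-p) hz (adsp_stable hF.1) hq
    rw [map_neg, neg_mul, neg_neg, ← hu] at hconj
    obtain ⟨pl, h1, h2, h3⟩ := ih hF.2 (fun x hx => hN x (by simp [hx]))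
      (IsNilpotent.exp (-u) * c) _ (by
        rw [map_mul, h0, mul_one, IsNilpotent.map_exp hun.neg, map_neg, constantCoeff_apply, hu,
          coeff_sc_mul_C, coeff_zero_eq_eval_zero, hp0, zero_smul, neg_zero, IsNilpotent.exp_zero])
      (by
        rw [derivative_mul, derivative_exp _ hun.neg (by
          rw [map_neg, hd]; exact hcomm.neg_left.neg_right), map_neg, hd, hc,
          (commute_exp hcomm.symm.neg_left.neg_right).eq, mul_assoc _ (IsNilpotent.exp u),
          ← mul_assoc (IsNilpotent.exp u), IsNilpotent.exp_mul_exp_neg_self hun]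
        noncomm_ring) hconj
    refine ⟨(p, z) :: pl, by simp [h1], ?_, ?_⟩
    · intro b hb
      rcases List.mem_cons.mp hb with rfl | hb
      · exact hp0
      · exact h2 b hb
    · rw [List.map_cons, List.prod_cons, ← h3, ← mul_assoc, ← hu,
        IsNilpotent.exp_mul_exp_neg_self hun, one_mul]

theorem pc : PCStmt := by
  intro L _ _ l hF hN hl X' Y hX hY nY nXY
  set u := sc (Module.End ℚ L) X * C (ad (X' + Y)) with hu
  set w := sc (Module.End ℚ L) X * C (ad Y) with hw
  have hun : IsNilpotent u := nil_sc_mul _ nXY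
  have hwn : IsNilpotent w := nil_sc_mul _ nY
  have hdu : derivative u = C (ad (X' + Y)) := by
    rw [hu, derivative_sc_mul, derivative_X, map_one, one_mul]
  have hdw : derivative w = C (ad Y) := by
    rw [hw, derivative_sc_mul, derivative_X, map_one, one_mul]
  have hcu : Commute u (C (ad (X' + Y))) := (sc_comm _ _).mul_left (Commute.refl _)
  have hcw : Commute w (C (ad Y)) := (sc_comm _ _).mul_left (Commute.refl _)
  have hmem : C (ad X') ∈ cf (adsp l) := by
    intro n
    rw [coeff_C]
    split_ifs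
    · exact ⟨X', hX, rfl⟩
    · exact Submodule.zero_mem _
  have hconj := cf_conj X nXY (adsp_stable (z := X' + Y) fun y hy => by
    rw [add_lie]; exact (sp l).add_mem (hl _ hX _ hy) (hY _ hy)) hmem
  rw [← hu] at hconj
  obtain ⟨pl, h1, h2, h3⟩ := flag_factor l hF hN (IsNilpotent.exp u * IsNilpotent.exp (-w)) _ (by
      rw [map_mul, IsNilpotent.map_exp hun, IsNilpotent.map_exp hwn.neg, map_neg,
        constantCoeff_apply, constantCoeff_apply, hu, hw, coeff_sc_mul_C, coeff_sc_mul_C]
      simp)
    (by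
      rw [derivative_mul, derivative_exp _ hun (by rw [hdu]; exact hcu),
        derivative_exp _ hwn.neg (by rw [map_neg, hdw]; exact hcw.neg_left.neg_right), map_neg, hdu,
        hdw, (commute_exp hcu.symm).eq, mul_assoc _ (IsNilpotent.exp (-u)),
        ← mul_assoc (IsNilpotent.exp (-u)), IsNilpotent.exp_neg_mul_exp_self hun]
      have : (C (ad (X' + Y)) : (Module.End ℚ L)[X]) = C (ad X') + C (ad Y) := by
        rw [← C_add]
        exact congrArg C (adL.map_add X' Y)
      rw [this]
      noncomm_ring) hconj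
  refine ⟨pl, h1, h2, fun t => ?_⟩
  let ev : (Module.End ℚ L)[X] →+* Module.End ℚ L := eval₂RingHom' (RingHom.id _)
    (algebraMap ℚ _ t) fun a => (Algebra.commutes t a).symm
  have hev : ∀ (p : ℚ[X]) (z : L), ev (sc _ p * C (ad z)) = ad (p.eval t • z) := by
    intro p z
    rw [map_mul]
    simp only [ev, eval₂RingHom'_apply, eval₂_C, RingHom.id_apply, sc, coe_mapRingHom, eval₂_map,
      RingHom.id_comp, eval₂_at_apply]
    rw [← Algebra.smul_def]
    exact (adL.map_smul _ z).symm
  have h4 : IsNilpotent.exp u = (pl.map fun b => IsNilpotent.exp (sc _ b.1 * C (ad b.2))).prod *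
      IsNilpotent.exp w := by
    rw [← h3, mul_assoc, IsNilpotent.exp_neg_mul_exp_self hwn, mul_one]
  have h5 := congrArg ev h4
  rw [map_mul, IsNilpotent.map_exp hun, IsNilpotent.map_exp hwn, hu, hw, hev, hev, eval_X,
    map_list_prod, List.map_map] at h5
  rw [ex, h5, ex]
  congr 2
  refine List.map_congr_left fun b hb => ?_
  have hb' : Nil b.2 := hN _ (h1 ▸ List.mem_map_of_mem hb)
  rw [Function.comp_apply, IsNilpotent.map_exp (nil_sc_mul _ hb'), hev, ex]

end Pool.Agent.MP_2b113a_an.H61
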