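import Mathlib

/-!
Bounded elementary generation, part 1: products of boundedly many transvections and the
reduction of the size of a matrix.
-/

namespace Pool.Agent.MP_2b113a_an.H61

open Matrix

section basic

variable {κ : Type} [Fintype κ] [DecidableEq κ]

/-- `A` is a product of at most `m` transvections. -/
def BE (m : ℕ) (A : Matrix κ κ ℤ) : Prop :=
  ∃ L : List (TransvectionStruct κ ℤ), L.length ≤ m ∧ (L.map TransvectionStruct.toMatrix).prod = A

theorem BE.one (m : ℕ) : BE m (1 : Matrix κ κ ℤ) := ⟨[], by simp, by simp⟩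

theorem BE.mono {m k : ℕ} {A : Matrix κ κ ℤ} (h : BE m A) (hk : m ≤ k) : BE k A := by
  obtain ⟨L, h1, h2⟩ := h
  exact ⟨L, h1.trans hk, h2⟩

theorem BE.mul {m k : ℕ} {A B : Matrix κ κ ℤ} (hA : BE m A) (hB : BE k B) :
    BE (m + k) (A * B) := by
  obtain ⟨L, h1, rfl⟩ := hA
  obtain ⟨L', h1', rfl⟩ := hB
  exact ⟨L ++ L', by simp; omega, by simp⟩

theorem BE.tv (i j : κ) (h : i ≠ j) (c : ℤ) : BE 1 (transvection i j c) :=
  ⟨[⟨i, j, h, c⟩], by simp, by simp⟩

theorem BE.det {m : ℕ} {A : Matrix κ κ ℤ} (h : BE m A) : A.det = 1 := by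
  obtain ⟨L, _, rfl⟩ := h
  exact TransvectionStruct.det_toMatrix_prod L

theorem BE.inv {m : ℕ} {A : Matrix κ κ ℤ} (h : BE m A) :
    ∃ B, BE m B ∧ A * B = 1 ∧ B * A = 1 := by
  obtain ⟨L, h1, rfl⟩ := h
  refine ⟨(L.reverse.map (TransvectionStruct.toMatrix ∘ TransvectionStruct.inv)).prod,
    ⟨L.reverse.map TransvectionStruct.inv, by simpa using h1, by simp⟩,
    TransvectionStruct.prod_mul_reverse_inv_prod L, TransvectionStruct.reverse_inv_prod_mul_prod L⟩

theorem BE.of_left {m k : ℕ} {P A : Matrix κ κ ℤ} (hP : BE k P) (h : BE m (P * A)) :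
    BE (k + m) A := by
  obtain ⟨Q, hQ, _, h2⟩ := hP.inv
  have := hQ.mul h
  rwa [← Matrix.mul_assoc, h2, Matrix.one_mul] at this

theorem BE.of_right {m k : ℕ} {P A : Matrix κ κ ℤ} (hP : BE k P) (h : BE m (A * P)) :
    BE (m + k) A := by
  obtain ⟨Q, hQ, h2, _⟩ := hP.inv
  have := h.mul hQ
  rwa [Matrix.mul_assoc, h2, Matrix.mul_one] at this

omit [Fintype κ] in
theorem tv_transpose (i j : κ) (c : ℤ) : (transvection i j c)ᵀ = transvection j i c := by
  simp [transvection, transpose_add, transpose_single]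

theorem BE.transpose {m : ℕ} {A : Matrix κ κ ℤ} (h : BE m A) : BE m Aᵀ := by
  obtain ⟨L, h1, rfl⟩ := h
  induction L generalizing m with
  | nil => simpa using BE.one m
  | cons t L ih =>
    simp only [List.map_cons, List.prod_cons, transpose_mul]
    have h2 := (ih (m := L.length) le_rfl).mul (BE.tv t.j t.i t.hij.symm t.c)
    rw [← tv_transpose] at h2
    exact h2.mono (by simpa using h1)

theorem BE.reindex {κ' : Type} [Fintype κ'] [DecidableEq κ'] (e : κ ≃ κ') {m : ℕ}
    {A : Matrix κ κ ℤ} (h : BE m A) : BE m (Matrix.reindex e e A) := by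
  obtain ⟨L, h1, rfl⟩ := h
  refine ⟨L.map (TransvectionStruct.reindexEquiv e), by simpa using h1, ?_⟩
  have := TransvectionStruct.toMatrix_reindexEquiv_prod e L
  rw [List.map_map, this]
  rfl

theorem BE.sumInl {κ' : Type} [Fintype κ'] [DecidableEq κ'] {m : ℕ}
    {A : Matrix κ κ ℤ} (h : BE m A) : BE m (fromBlocks A 0 0 (1 : Matrix κ' κ' ℤ)) := by
  obtain ⟨L, h1, rfl⟩ := h
  refine ⟨L.map (TransvectionStruct.sumInl κ'), by simpa using h1, ?_⟩
  have := TransvectionStruct.sumInl_toMatrix_prod_mul κ' (1 : Matrix κ κ ℤ) L (1 : Matrix κ' κ' ℤ)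
  rw [fromBlocks_one, Matrix.mul_one, Matrix.mul_one] at this
  rw [List.map_map, this]

theorem BE.rowop {ι : Type} [DecidableEq ι] (s : Finset ι) (f : ι → κ) (i : κ) (c : ι → ℤ)
    (h : ∀ j ∈ s, i ≠ f j) : BE s.card (1 + ∑ j ∈ s, single i (f j) (c j)) := by
  induction s using Finset.induction_on with
  | empty => simpa using BE.one 0
  | insert a s ha ih =>
    have h1 := (ih fun j hj => h j (Finset.mem_insert_of_mem hj)).mul
      (BE.tv i (f a) (h a (Finset.mem_insert_self _ _)) (c a))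
    rw [Finset.card_insert_of_notMem ha, Finset.sum_insert ha]
    convert h1 using 1
    rw [transvection, Matrix.mul_add, Matrix.mul_one, Matrix.add_mul, Matrix.one_mul,
      Finset.sum_mul]
    have : ∑ j ∈ s, single i (f j) (c j) * single i (f a) (c a) = 0 := by
      refine Finset.sum_eq_zero fun j hj => ?_
      exact single_mul_single_of_ne _ _ _ _ (h j (Finset.mem_insert_of_mem hj)).symm _
    rw [this]
    abel

theorem rowop_mulVec (s : Finset κ) (i : κ) (c v : κ → ℤ) (k : κ) :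
    ((1 + ∑ j ∈ s, single i j (c j)) *ᵥ v) k =
      v k + if k = i then ∑ j ∈ s, c j * v j else 0 := by
  rw [add_mulVec, one_mulVec, Pi.add_apply, Matrix.sum_mulVec, Finset.sum_apply]
  congr 1
  split_ifs with h
  · subst h
    refine Finset.sum_congr rfl fun j _ => ?_
    simp [single_mulVec]
  · refine Finset.sum_eq_zero fun j _ => ?_
    simp [single_mulVec, Function.update_of_ne h]

theorem exists_coprime_add (x y g : ℤ) (hx : x ≠ 0) (h : IsCoprime y g) :
    ∃ t : ℤ, IsCoprime x (y + t * g) := by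
  by_cases hg : g = 0
  · subst hg
    refine ⟨0, ?_⟩
    have : IsUnit y := isCoprime_zero_right.mp h
    obtain ⟨u, rfl⟩ := this
    simpa using ⟨0, (↑u⁻¹ : ℤ), by simp⟩
  · obtain ⟨p, hp1, hp2, hp3⟩ := Nat.forall_exists_prime_gt_and_zmodEq x.natAbs
      (q := g.natAbs) (a := y) (by simpa using hg) (by simpa [Int.isCoprime_iff_gcd_eq_one, Int.gcd, Int.natAbs_abs] using h)
    have h4 : g ∣ (p : ℤ) - y := by
      have := hp3.symm.dvd
      exact Int.natAbs_dvd.mp this
    obtain ⟨t, ht⟩ := h4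
    refine ⟨t, ?_⟩
    have : y + t * g = p := by linarith
    rw [this]
    have hc : Nat.Coprime x.natAbs p := by
      refine ((Nat.Prime.coprime_iff_not_dvd hp2).mpr fun hd => ?_).symm
      have := Nat.le_of_dvd (by simpa using hx) hd
      omega
    exact Int.isCoprime_iff_gcd_eq_one.mpr (by simpa [Int.gcd] using hc)

/-- A unimodular vector can be moved to one with a prescribed entry `1`. -/
theorem vec_red (i₀ i₁ i₂ : κ) (h01 : i₀ ≠ i₁) (h02 : i₀ ≠ i₂) (h12 : i₁ ≠ i₂) (u v : κ → ℤ)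
    (huv : u ⬝ᵥ v = 1) :
    ∃ P : Matrix κ κ ℤ, BE (Fintype.card κ + 3) P ∧ (P *ᵥ v) i₂ = 1 := by
  -- first step
  have key : ∀ u v : κ → ℤ, u ⬝ᵥ v = 1 → v i₀ ≠ 0 →
      ∃ P : Matrix κ κ ℤ, BE (Fintype.card κ + 2) P ∧ (P *ᵥ v) i₂ = 1 := by
    intro u v huv h0
    set g := ∑ j ∈ Finset.univ.erase i₁, u j * v j with hg
    have hg1 : u i₁ * v i₁ + g = 1 := by
      rw [hg, Finset.add_sum_erase Finset.univ (fun j => u j * v j) (Finset.mem_univ i₁)]
      exact huv
    obtain ⟨t, x, y, hxy⟩ := exists_coprime_add (v i₀) (v i₁) g h0 ⟨u i₁, 1, by linarith⟩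
    have hP := BE.rowop (Finset.univ.erase i₁) id i₁ (fun j => t * u j)
      (fun j hj => (Finset.ne_of_mem_erase hj).symm)
    set P := 1 + ∑ j ∈ Finset.univ.erase i₁, single i₁ (id j) (t * u j) with hPdef
    have hPv : ∀ k, (P *ᵥ v) k = v k + if k = i₁ then t * g else 0 := by
      intro k
      have := rowop_mulVec (Finset.univ.erase i₁) i₁ (fun j => t * u j) v k
      rw [hg, Finset.mul_sum]
      simp only [mul_assoc] at this
      exact this
    have hQ := BE.rowop {i₀, i₁} id i₂ (fun j => (1 - v i₂) * if j = i₀ then x else y)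
      (by intro j hj; simp at hj; rcases hj with rfl | rfl; exacts [h02.symm, h12.symm])
    refine ⟨_, (hQ.mul hP).mono ?_, ?_⟩
    · rw [Finset.card_pair h01, Finset.card_erase_of_mem (Finset.mem_univ _), Finset.card_univ]
      omega
    · rw [← mulVec_mulVec]
      have := rowop_mulVec {i₀, i₁} i₂ (fun j => (1 - v i₂) * if j = i₀ then x else y)
        (P *ᵥ v) i₂
      simp only [id]
      rw [this, Finset.sum_pair h01, hPv, hPv, hPv]
      simp only [h01, h01.symm, h12.symm, if_true, if_false]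
      linear_combination (1 - v i₂) * hxy
  by_cases h0 : v i₀ = 0
  · obtain ⟨j, hj⟩ : ∃ j, v j ≠ 0 := by
      by_contra hh
      push Not at hh
      have : v = 0 := funext hh
      simp [this] at huv
    have hji : i₀ ≠ j := by rintro rfl; exact hj h0
    have hT := BE.tv i₀ j hji 1
    obtain ⟨T', _, hT1, hT2⟩ := hT.inv
    obtain ⟨P, hP, hP2⟩ := key (u ᵥ* T') (transvection i₀ j 1 *ᵥ v)
      (by rw [← dotProduct_mulVec, mulVec_mulVec, hT2, one_mulVec, huv])
      (by simp [transvection, add_mulVec, single_mulVec, h0, hj])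
    exact ⟨_, hP.mul hT, by rw [← mulVec_mulVec, hP2]⟩
  · obtain ⟨P, hP, hP2⟩ := key u v huv h0
    exact ⟨P, hP.mono (by omega), hP2⟩

theorem BE.lower (w : Matrix Unit κ ℤ) :
    BE (Fintype.card κ) (fromBlocks (1 : Matrix κ κ ℤ) 0 w (1 : Matrix Unit Unit ℤ)) := by
  have := BE.rowop (κ := κ ⊕ Unit) Finset.univ Sum.inl (Sum.inr ()) (fun j => w () j) (by simp)
  rw [Finset.card_univ] at this
  convert this using 1
  ext (i | i) (j | j) <;> simp [Matrix.sum_apply, single_apply, one_apply]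

theorem BE.upper (w : Matrix κ Unit ℤ) :
    BE (Fintype.card κ) (fromBlocks (1 : Matrix κ κ ℤ) w 0 (1 : Matrix Unit Unit ℤ)) := by
  have := (BE.lower wᵀ).transpose
  simpa [fromBlocks_transpose] using this

/-- Reduction of the size. -/
theorem step (i₀ i₁ : κ) (h01 : i₀ ≠ i₁) (A : Matrix (κ ⊕ Unit) (κ ⊕ Unit) ℤ) (hA : A.det = 1) :
    ∃ B : Matrix κ κ ℤ, B.det = 1 ∧ ∀ m, BE m (fromBlocks B 0 0 (1 : Matrix Unit Unit ℤ)) →
      BE (m + (3 * Fintype.card κ + 4)) A := by
  have hu : (adjugate A) (Sum.inr ()) ⬝ᵥ (fun j => A j (Sum.inr ())) = 1 := by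
    have := congrFun (congrFun (adjugate_mul A) (Sum.inr ())) (Sum.inr ())
    rw [hA, one_smul, one_apply_eq] at this
    exact this
  obtain ⟨P, hP, hP2⟩ := vec_red (Sum.inl i₀) (Sum.inl i₁) (Sum.inr ()) (by simpa using h01)
    (by simp) (by simp) _ _ hu
  have hc : (P * A) (Sum.inr ()) (Sum.inr ()) = 1 := hP2
  have hdet : (P * A).det = 1 := by rw [det_mul, hP.det, hA, one_mul]
  set A' := P * A with hA'
  have h22 : A'.toBlocks₂₂ = 1 := by
    ext i j
    simpa [toBlocks₂₂] using hc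
  have hdec : A' = fromBlocks 1 A'.toBlocks₁₂ 0 1 *
      fromBlocks (A'.toBlocks₁₁ - A'.toBlocks₁₂ * A'.toBlocks₂₁) 0 0 1 *
      fromBlocks 1 0 A'.toBlocks₂₁ 1 := by
    conv_lhs => rw [← fromBlocks_toBlocks A', h22]
    simp [fromBlocks_multiply]
  refine ⟨A'.toBlocks₁₁ - A'.toBlocks₁₂ * A'.toBlocks₂₁, ?_, fun m hm => ?_⟩
  · rw [hdec, det_mul, det_mul, (BE.upper _).det, (BE.lower _).det, det_fromBlocks_zero₂₁] at hdet
    simpa using hdet
  · have h1 : BE (Fintype.card κ + m + Fintype.card κ) A' := by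
      rw [hdec]
      exact ((BE.upper _).mul hm).mul (BE.lower _)
    refine (hP.of_left h1).mono ?_
    simp
    omega

end basic

end Pool.Agent.MP_2b113a_an.H61
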