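import Pool.Agent.MP_2b113a_an.H61.BG1

/-!
Bounded elementary generation, part 2: the corner copy of `SL 2 ℤ` in `SL 3 ℤ`.
-/

namespace Pool.Agent.MP_2b113a_an.H61

open Matrix

/-- The corner embedding. -/
def emb (a b c d : ℤ) : Matrix (Fin 3) (Fin 3) ℤ := !![a, b, 0; c, d, 0; 0, 0, 1]

theorem b01 (c : ℤ) : BE 1 (!![1, c, 0; 0, 1, 0; 0, 0, 1] : Matrix (Fin 3) (Fin 3) ℤ) := by
  convert BE.tv (0 : Fin 3) 1 (by decide) c using 1
  ext i j; fin_cases i <;> fin_cases j <;> simp [transvection]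

theorem b10 (c : ℤ) : BE 1 (!![1, 0, 0; c, 1, 0; 0, 0, 1] : Matrix (Fin 3) (Fin 3) ℤ) := by
  convert BE.tv (1 : Fin 3) 0 (by decide) c using 1
  ext i j; fin_cases i <;> fin_cases j <;> simp [transvection]

theorem b02 (c : ℤ) : BE 1 (!![1, 0, c; 0, 1, 0; 0, 0, 1] : Matrix (Fin 3) (Fin 3) ℤ) := by
  convert BE.tv (0 : Fin 3) 2 (by decide) c using 1
  ext i j; fin_cases i <;> fin_cases j <;> simp [transvection]

theorem b20 (c : ℤ) : BE 1 (!![1, 0, 0; 0, 1, 0; c, 0, 1] : Matrix (Fin 3) (Fin 3) ℤ) := by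
  convert BE.tv (2 : Fin 3) 0 (by decide) c using 1
  ext i j; fin_cases i <;> fin_cases j <;> simp [transvection]

theorem b12 (c : ℤ) : BE 1 (!![1, 0, 0; 0, 1, c; 0, 0, 1] : Matrix (Fin 3) (Fin 3) ℤ) := by
  convert BE.tv (1 : Fin 3) 2 (by decide) c using 1
  ext i j; fin_cases i <;> fin_cases j <;> simp [transvection]

theorem b21 (c : ℤ) : BE 1 (!![1, 0, 0; 0, 1, 0; 0, c, 1] : Matrix (Fin 3) (Fin 3) ℤ) := by
  convert BE.tv (2 : Fin 3) 1 (by decide) c using 1
  ext i j; fin_cases i <;> fin_cases j <;> simp [transvection]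

theorem bD1 : BE 4 (!![-1, 0, 0; 0, -1, 0; 0, 0, 1] : Matrix (Fin 3) (Fin 3) ℤ) := by
  convert (((b01 1).mul (b10 (-2))).mul (b01 1)).mul (b10 (-2)) using 1
  simp [Matrix.mul_fin_three]

theorem bD2 : BE 4 (!![1, 0, 0; 0, -1, 0; 0, 0, -1] : Matrix (Fin 3) (Fin 3) ℤ) := by
  convert (((b12 1).mul (b21 (-2))).mul (b12 1)).mul (b21 (-2)) using 1
  simp [Matrix.mul_fin_three]

theorem bW : BE 3 (!![0, 0, 1; 0, 1, 0; -1, 0, 0] : Matrix (Fin 3) (Fin 3) ℤ) := by
  convert ((b02 1).mul (b20 (-1))).mul (b02 1) using 1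
  simp [Matrix.mul_fin_three]

theorem bW' : BE 3 (!![0, 0, -1; 0, 1, 0; 1, 0, 0] : Matrix (Fin 3) (Fin 3) ℤ) := by
  convert ((b02 (-1)).mul (b20 1)).mul (b02 (-1)) using 1
  simp [Matrix.mul_fin_three]

theorem emb_transpose (a b c d : ℤ) : (emb a b c d)ᵀ = emb a c b d := by
  ext i j; fin_cases i <;> fin_cases j <;> simp [emb]

theorem emb_mul (a b c d a' b' c' d' : ℤ) : emb a b c d * emb a' b' c' d' =
    emb (a * a' + b * c') (a * b' + b * d') (c * a' + d * c') (c * b' + d * d') := by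
  simp [emb, Matrix.mul_fin_three]

theorem emb_congr {a b c d a' b' c' d' : ℤ} (h1 : a = a') (h2 : b = b') (h3 : c = c')
    (h4 : d = d') : emb a b c d = emb a' b' c' d' := by rw [h1, h2, h3, h4]

theorem e01 (c : ℤ) : BE 1 (emb 1 c 0 1) := b01 c
theorem e10 (c : ℤ) : BE 1 (emb 1 0 c 1) := b10 c
theorem eD : BE 4 (emb (-1) 0 0 (-1)) := bD1

/-- Every corner matrix with first column `(a, c)` is a product of at most `m` transvections. -/
def MS (m : ℕ) (a c : ℤ) : Prop := ∀ b d : ℤ, a * d - b * c = 1 → BE m (emb a b c d)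

theorem MS.mono {m k : ℕ} {a c : ℤ} (h : MS m a c) (hk : m ≤ k) : MS k a c :=
  fun b d hd => (h b d hd).mono hk

theorem MS.intro {m : ℕ} {a b c d : ℤ} (h : a * d - b * c = 1) (hB : BE m (emb a b c d)) :
    MS (m + 1) a c := by
  intro b' d' h'
  convert hB.mul (e01 (d * b' - b * d')) using 1
  rw [emb_mul]
  refine emb_congr (by ring) ?_ (by ring) ?_
  · linear_combination (-b') * h + b * h'
  · linear_combination (-d') * h + d * h'

theorem MS.row1 {m : ℕ} {a c : ℤ} (t : ℤ) (h : MS m (a + t * c) c) : MS (m + 1) a c := by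
  intro b d hd
  have := (e01 (-t)).mul (h (b + t * d) d (by linear_combination hd))
  rw [emb_mul, add_comm 1 m] at this
  convert this using 1
  exact emb_congr (by ring) (by ring) (by ring) (by ring)

theorem MS.row2 {m : ℕ} {a c : ℤ} (t : ℤ) (h : MS m a (c + t * a)) : MS (m + 1) a c := by
  intro b d hd
  have := (e10 (-t)).mul (h b (d + t * b) (by linear_combination hd))
  rw [emb_mul, add_comm 1 m] at this
  convert this using 1
  exact emb_congr (by ring) (by ring) (by ring) (by ring)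

theorem MS.neg {m : ℕ} {a c : ℤ} (h : MS m (-a) (-c)) : MS (m + 4) a c := by
  intro b d hd
  have := eD.mul (h (-b) (-d) (by linear_combination hd))
  rw [emb_mul, add_comm 4 m] at this
  convert this using 1
  exact emb_congr (by ring) (by ring) (by ring) (by ring)

theorem MS.one (c : ℤ) : MS 2 1 c := by
  intro b d hd
  have := (e10 c).mul (e01 b)
  rw [emb_mul] at this
  convert this using 1
  exact emb_congr (by ring) (by ring) (by ring) (by linear_combination hd)

theorem MS.unit {e : ℤ} (he : e = 1 ∨ e = -1) (c : ℤ) : MS 6 e c := by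
  rcases he with rfl | rfl
  · exact (MS.one c).mono (by norm_num)
  · exact MS.neg (m := 2) (by simpa using MS.one (-c))

theorem MS.swindle {m : ℕ} {a c : ℤ} (s k : ℤ) (ha : a = 1 + s * k) (h : MS m a c) :
    MS (m + 12) a (s * c) := by
  intro b d hd
  have hN := h (s * b) d (by linear_combination hd)
  have := ((((((((b12 c).mul (b02 k)).mul (b20 s)).mul bW).mul hN).mul bW').mul
    (b02 (-k))).mul (b01 b)).mul (b20 (-s))
  have e : 1 + 1 + 1 + 3 + m + 3 + 1 + 1 + 1 = m + 12 := by omega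
  rw [e] at this
  convert this using 1
  subst ha
  simp only [emb, Matrix.mul_fin_three]
  ext i j; fin_cases i <;> fin_cases j <;> simp <;> ring

theorem MS.swindle' {m : ℕ} {a c : ℤ} (s k : ℤ) (ha : a = -1 + s * k) (h : MS m a c) :
    MS (m + 20) a (s * c) := by
  have h1 : MS (m + 4) (-a) (-c) := MS.neg (by simpa using h)
  have h2 := h1.swindle s (-k) (by rw [ha]; ring)
  exact MS.neg (m := m + 4 + 12) (by simpa using h2)

theorem emb_pow {a b c d : ℤ} (h : a * d - b * c = 1) (n : ℕ) :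
    ∃ x y : ℤ, emb a b c d ^ n = emb (x + y * a) (y * b) (y * c) (x + y * d) ∧
      x ^ 2 + x * y * (a + d) + y ^ 2 = 1 ∧ c ∣ x + y * a - a ^ n := by
  induction n with
  | zero =>
    refine ⟨1, 0, ?_, by ring, by simp⟩
    ext i j; fin_cases i <;> fin_cases j <;> simp [emb]
  | succ n ih =>
    obtain ⟨x, y, h1, h2, t, h3⟩ := ih
    refine ⟨-y, x + (a + d) * y, ?_, by linear_combination h2, a * t + y * b, ?_⟩
    · rw [pow_succ, h1, emb_mul]
      refine emb_congr ?_ (by ring) (by ring) ?_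
      · linear_combination (-y) * h
      · linear_combination (-y) * h
    · linear_combination a * h3 + y * h

theorem pow_BE {a b c d : ℤ} (h : a * d - b * c = 1) (n : ℕ) {e : ℤ} (he : e = 1 ∨ e = -1)
    (hc : c ∣ a ^ n - e) : BE 39 (emb a b c d ^ n) := by
  obtain ⟨x, y, h1, h2, t, h3⟩ := emb_pow h n
  obtain ⟨t', h4⟩ := hc
  have hy : y ∣ (x - 1) * (x + 1) := ⟨-(x * (a + d) + y), by linear_combination h2⟩
  obtain ⟨y₁, y₂, ⟨k₁, hk₁⟩, ⟨k₂, hk₂⟩, rfl⟩ := exists_dvd_and_dvd_of_dvd_mul hy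
  have m1 : MS 7 (x + y₁ * y₂ * a) c := by
    refine MS.row1 (-(t + t')) ?_
    have : x + y₁ * y₂ * a + -(t + t') * c = e := by linear_combination h3 + h4
    rw [this]
    exact MS.unit he c
  have m2 := m1.swindle' y₂ (k₂ + y₁ * a) (by linear_combination hk₂)
  have m3 := m2.swindle y₁ (k₁ + y₂ * a) (by linear_combination hk₁)
  rw [h1]
  have := m3 (y₁ * y₂ * b) (x + y₁ * y₂ * d) (by linear_combination h2 + (y₁ * y₂) ^ 2 * h)
  rwa [← mul_assoc] at this

theorem pow_BE' {a b c d : ℤ} (h : a * d - b * c = 1) (n : ℕ) {e : ℤ} (he : e = 1 ∨ e = -1)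
    (hb : b ∣ a ^ n - e) : BE 39 (emb a b c d ^ n) := by
  have := (pow_BE (a := a) (b := c) (c := b) (d := d) (by linear_combination h) n he hb).transpose
  rwa [transpose_pow, emb_transpose] at this

theorem fermat {p : ℕ} (hp : p.Prime) {a : ℤ} (h : IsCoprime a p) : (p : ℤ) ∣ a ^ (p - 1) - 1 :=
  (Int.ModEq.pow_card_sub_one_eq_one hp h).symm.dvd

theorem core_pq {a d : ℤ} {p q p' w : ℕ} (hp : p.Prime) (hq : q.Prime) (hp' : p = 2 * p' + 1)
    (hq' : q = p' * w + 2) (h : a * d - p * q = 1) : BE 78 (emb a p q d) := by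
  have f1 := fermat hp (a := a) ⟨d, -q, by linear_combination h⟩
  have f2 := fermat hq (a := a) ⟨d, -p, by linear_combination h⟩
  have e1 : p - 1 = 2 * p' := by omega
  have e2 : q - 1 = p' * w + 1 := by omega
  rw [e1] at f1
  rw [e2] at f2
  have f3 : (p : ℤ) ∣ (a ^ p' - 1) * (a ^ p' - (-1)) := by
    convert f1 using 1; ring
  obtain ⟨e, he, hd⟩ : ∃ e : ℤ, (e = 1 ∨ e = -1) ∧ (p : ℤ) ∣ a ^ p' - e := by
    rcases (Nat.prime_iff_prime_int.mp hp).dvd_or_dvd f3 with h1 | h1
    · exact ⟨1, Or.inl rfl, h1⟩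
    · exact ⟨-1, Or.inr rfl, h1⟩
  have he' : e ^ w = 1 ∨ e ^ w = -1 := by
    rcases he with rfl | rfl
    · simp
    · exact neg_one_pow_eq_or ℤ w
  have hd' : (p : ℤ) ∣ a ^ (p' * w) - e ^ w := by
    rw [pow_mul]
    exact hd.trans (sub_dvd_pow_sub_pow _ _ _)
  have B1 := pow_BE' h (p' * w) he' hd'
  have B2 := pow_BE h (p' * w + 1) (Or.inl rfl) f2
  rw [pow_succ] at B2
  exact B1.of_left B2

theorem dirichlet2 (m n : ℕ) (hm : m ≠ 0) (hn : n ≠ 0) (hmn : IsCoprime (m : ℤ) n) (r s : ℤ)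
    (hr : IsCoprime r m) (hs : IsCoprime s n) :
    ∃ p : ℕ, p.Prime ∧ (m : ℤ) ∣ p - r ∧ (n : ℤ) ∣ p - s := by
  obtain ⟨u, v, huv⟩ := hmn
  have c1 : IsCoprime (s * u * m + r * v * n) (m : ℤ) := by
    have : s * u * m + r * v * n = r + m * (s * u - r * u) := by linear_combination r * huv
    rw [this]
    exact hr.add_mul_left_left _
  have c2 : IsCoprime (s * u * m + r * v * n) (n : ℤ) := by
    have : s * u * m + r * v * n = s + n * (r * v - s * v) := by linear_combination s * huv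
    rw [this]
    exact hs.add_mul_left_left _
  obtain ⟨p, _, hp, hp3⟩ := Nat.forall_exists_prime_gt_and_zmodEq 0 (q := m * n)
    (a := s * u * m + r * v * n) (mul_ne_zero hm hn) (by push_cast; exact c1.mul_right c2)
  obtain ⟨t, ht⟩ := hp3.symm.dvd
  push_cast at ht
  exact ⟨p, hp, ⟨n * t + s * u - r * u, by linear_combination ht + r * huv⟩,
    ⟨m * t + r * v - s * v, by linear_combination ht + s * huv⟩⟩

theorem core_prime {l : ℕ} (hl : l.Prime) (h2 : 2 < l) (c : ℤ) : MS 80 l c := by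
  intro b d h
  by_cases hb : (l : ℤ) ∣ b - 1
  · obtain ⟨t, ht⟩ := hb
    have m1 : MS 3 l 1 := MS.row1 (1 - l) (by simpa using MS.one 1)
    have := (m1 c (d - t * c) (by linear_combination h + c * ht)).transpose
    rw [emb_transpose] at this
    exact (MS.intro (by linear_combination h + c * ht) this).mono (by norm_num) b d h
  · have hodd : l % 2 = 1 := hl.eq_two_or_odd.resolve_left (by omega)
    have c4 : IsCoprime (l : ℤ) ((4 : ℕ) : ℤ) := by
      rw [Nat.isCoprime_iff_coprime]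
      have : Nat.Coprime l 2 := (Nat.coprime_primes hl Nat.prime_two).mpr (by omega)
      exact this.pow_right 2
    obtain ⟨p, hp, ⟨t, ht⟩, hp4⟩ := dirichlet2 l 4 hl.ne_zero (by norm_num) c4 b 3
      ⟨-c, d, by linear_combination h⟩ ⟨-1, 1, by norm_num⟩
    obtain ⟨p', hp'⟩ : ∃ p', p = 2 * p' + 1 := ⟨p / 2, by omega⟩
    have hp'odd : p' % 2 = 1 := by omega
    have c5 : IsCoprime (l : ℤ) (p' : ℤ) := by
      rw [Nat.isCoprime_iff_coprime, hl.coprime_iff_not_dvd]
      rintro ⟨z, hz⟩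
      apply hb
      refine ⟨2 * z - t, ?_⟩
      have : (p : ℤ) = 2 * (l * z) + 1 := by rw [hp', hz]; push_cast; ring
      linear_combination this - ht
    obtain ⟨q, hq, ⟨t', ht'⟩, hq2⟩ := dirichlet2 l p' hl.ne_zero (by omega) c5 c 2
      ⟨-b, d, by linear_combination h⟩
      ⟨-(p' / 2 : ℕ), 1, by
        have : p' = 2 * (p' / 2) + 1 := by omega
        have h3 : (p' : ℤ) = 2 * (p' / 2 : ℕ) + 1 := by exact_mod_cast this
        linear_combination h3⟩
    obtain ⟨w, hw⟩ : ∃ w, q = p' * w + 2 := by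
      have hq2' := hq.two_le
      have : p' ∣ q - 2 := by
        rw [← Int.natCast_dvd_natCast, Nat.cast_sub hq2']
        exact hq2
      obtain ⟨w, hw⟩ := this
      exact ⟨w, by omega⟩
    have hdet : (l : ℤ) * (d + c * t + t' * p) - p * q = 1 := by
      linear_combination h - c * ht - p * ht'
    have m1 := MS.intro hdet (core_pq hp hq hp' hw hdet)
    have m2 : MS 80 l c := MS.row2 t' (by
      have : c + t' * l = q := by linear_combination (-1) * ht'
      rw [this]; exact m1)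
    exact m2 b d h

theorem core {a b c d : ℤ} (h : a * d - b * c = 1) : BE 81 (emb a b c d) := by
  by_cases hc : c = 0
  · subst hc
    have : a = 1 ∨ a = -1 := Int.eq_one_or_neg_one_of_mul_eq_one (v := d) (by linarith)
    exact ((MS.unit this 0).mono (by norm_num)) b d h
  · have hcop : IsCoprime a c := ⟨d, -b, by linear_combination h⟩
    obtain ⟨l, hl1, hl2, hl3⟩ := Nat.forall_exists_prime_gt_and_zmodEq 2
      (q := c.natAbs) (a := a) (by simpa using hc)
      (by simpa [Int.isCoprime_iff_gcd_eq_one, Int.gcd, Int.natAbs_abs] using hcop)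
    obtain ⟨t, ht⟩ : c ∣ (l : ℤ) - a := Int.natAbs_dvd.mp hl3.symm.dvd
    have m1 : MS 81 a c := MS.row1 t (by
      have : a + t * c = l := by linear_combination (-1) * ht
      rw [this]; exact core_prime hl2 hl1 c)
    exact m1 b d h

end Pool.Agent.MP_2b113a_an.H61
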